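import Pool.Agent.KS6_63.UST.BR
import Pool.Agent.KS6_63.UST.FA
import Pool.Agent.KS6_63.UST.CN
import Pool.Agent.KS6_63.UST.CV
import Pool.Agent.KS6_63.UST.CF
import Pool.Agent.KS6_63.UST.TY
import Pool.Agent.KS6_63.UST.PH
import Pool.Agent.KS6_63.UST.CT
import Pool.Agent.KS6_63.UST.L1
import Pool.Agent.KS6_63.UST.L2
import Pool.Agent.KS6_63.UST.L3
import Pool.Agent.KS6_63.UST.U
import Pool.Agent.KS6_63.UST.L

set_option autoImplicit false

/-!
# The isomorphism type of a uniform random spanning tree of a graph of large minimum degree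

For every `ε > 0` there is `d₀` such that for every connected graph `G` of minimum degree at least `d₀`
and maximum degree at most `Δ` on `n` vertices and every finite tree `T` the uniform random spanning
tree of `G` is isomorphic to `T` with probability at most
`(∏ x, Δ / deg x) * exp (-(1 - ε) n) / |Aut T|`. In particular the bound `exp (-(1 - ε) n) / |Aut T|`
holds for all graphs that are almost regular.

The proof follows the proof for regular graphs in the library (result
`MP_148fc2_co.IsomorphismProbability`, modules BR, FA, CN, CF, TY, PH, CT, U, L3). New: the module CV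
(domination of the numbers of neighbours by a small family) for graphs of bounded degree, and the lower
bound `exp (-ε n) * ∏ x, deg x` for the number of spanning trees of a connected graph of large minimum
degree and arbitrary maximum degree (modules L1, L2, L): the edge that is removed from a cycle of a
random function starts at a vertex of the least degree of the cycle.
-/

namespace Pool.Agent.Results.MP_148fc2_co.EveryDegreeSequence

open Pool.Agent.KS6_63.UST

/-- The spanning trees of the graph `G`. -/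
def spanningTrees {V : Type} (G : SimpleGraph V) : Set (SimpleGraph V) := {S | S ≤ G ∧ S.IsTree}

/-- The probability that a spanning tree of `G`, chosen uniformly at random, is isomorphic to `T`. -/
noncomputable def isoProb {V W : Type} (G : SimpleGraph V) (T : SimpleGraph W) : ℝ :=
  ({S | S ∈ spanningTrees G ∧ Nonempty (S ≃g T)}.ncard : ℝ) / (spanningTrees G).ncard

/-- The degree of the vertex `x` of `G`. -/
noncomputable def deg {V : Type} (G : SimpleGraph V) (x : V) : ℕ := (G.neighborSet x).ncard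

lemma exists_parent {W : Type} (T : SimpleGraph W) (hT : T.Connected) (r : W) :
    ∃ par : W → W, ∀ t, t ≠ r → T.Adj (par t) t ∧ T.dist r (par t) < T.dist r t := by
  have h : ∀ t, ∃ s, t ≠ r → T.Adj s t ∧ T.dist r s < T.dist r t := by
    intro t
    by_cases ht : t = r
    · exact ⟨t, fun h => absurd ht h⟩
    · obtain ⟨p, hp⟩ := (hT.preconnected t r).exists_walk_length_eq_dist
      cases p with
      | nil => exact absurd rfl ht
      | cons hadj q =>
        rename_i s
        refine ⟨s, fun _ => ⟨hadj.symm, ?_⟩⟩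
        have h1 : T.dist s r ≤ q.length := SimpleGraph.dist_le q
        rw [SimpleGraph.Walk.length_cons] at hp
        rw [SimpleGraph.dist_comm, SimpleGraph.dist_comm (u := r)]
        omega
  choose par hpar using h
  exact ⟨par, hpar⟩

theorem general (ε : ℝ) (hε : 0 < ε) : ∃ d₀ : ℕ, 1 ≤ d₀ ∧ ∀ (V W : Type) [Fintype V] [Fintype W]
    (G : SimpleGraph V) (T : SimpleGraph W) (Δ : ℕ), G.Connected → T.IsTree →
    (∀ x, d₀ ≤ deg G x) → (∀ x, deg G x ≤ Δ) →
    isoProb G T ≤ (∏ x, (Δ / deg G x : ℝ)) * Real.exp (-(1 - ε) * Fintype.card V) /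
      Nat.card (T ≃g T) := by
  classical
  obtain ⟨d₁, h₁⟩ := u fa cn (cf cn (cv cn)) ty (ct (ph br)) (ε / 2) (by positivity)
  obtain ⟨d₂, h₂⟩ := l cn l1 l2 l3 (ε / 2) (by positivity)
  refine ⟨max (max d₁ d₂) 1, le_max_right _ _, ?_⟩
  intro V W _ _ G T Δ hG hT hmin hmax
  have hd1 : ∀ x, d₁ ≤ deg G x := fun x =>
    (le_max_left _ _).trans ((le_max_left _ _).trans (hmin x))
  have hd2 : ∀ x, d₂ ≤ deg G x := fun x =>
    (le_max_right _ _).trans ((le_max_left _ _).trans (hmin x))
  have hd3 : ∀ x, 1 ≤ deg G x := fun x => (le_max_right _ _).trans (hmin x)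
  have hdpos : ∀ x, (0 : ℝ) < deg G x := fun x => by exact_mod_cast hd3 x
  have hAne : Nonempty (T ≃g T) := ⟨SimpleGraph.Iso.refl⟩
  have hAfin : Finite (T ≃g T) :=
    Finite.of_injective (fun α : T ≃g T => α.toEquiv) (fun α β h => RelIso.toEquiv_injective h)
  have hApos : (0 : ℝ) < Nat.card (T ≃g T) := by exact_mod_cast Nat.card_pos
  set I : Set (SimpleGraph V) := {S | S ∈ spanningTrees G ∧ Nonempty (S ≃g T)} with hI
  have hτ' : (∏ x, (deg G x : ℝ)) * Real.exp (-(ε / 2 * Fintype.card V)) ≤
      ((spanningTrees G).ncard : ℝ) := h₂ V G hG hd2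
  have hPpos : (0 : ℝ) < ∏ x, (deg G x : ℝ) := Finset.prod_pos fun x _ => hdpos x
  have hτpos : (0 : ℝ) < (spanningTrees G).ncard := lt_of_lt_of_le (by positivity) hτ'
  rw [isoProb, ← hI]
  by_cases hcard : Fintype.card W = Fintype.card V
  swap
  · have hIe : I = ∅ := by
      rw [Set.eq_empty_iff_forall_notMem]
      rintro S ⟨-, ⟨e⟩⟩
      exact hcard (Fintype.card_congr e.toEquiv).symm
    rw [hIe, Set.ncard_empty]
    simp only [Nat.cast_zero, zero_div]
    have : 0 ≤ ∏ x, (Δ / deg G x : ℝ) := Finset.prod_nonneg fun x _ => by positivity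
    positivity
  obtain ⟨r⟩ := hT.connected.nonempty
  obtain ⟨x₀⟩ := hG.nonempty
  obtain ⟨par, hpar⟩ := exists_parent T hT.connected r
  set N : V → Finset V := fun x => Finset.univ.filter fun y => G.Adj x y with hN
  have hNmem : ∀ x y, y ∈ N x ↔ G.Adj x y := by intro x y; simp [hN]
  have hNd : ∀ x, (N x).card = deg G x := by
    intro x
    have : deg G x = Nat.card {y // G.Adj x y} := rfl
    rw [this, Nat.card_eq_fintype_card, Fintype.card_subtype]
  have hU := h₁ Δ ((hd1 x₀).trans (hmax x₀)) V W N r par (fun t => T.dist r t)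
    (by
      refine (hd1 x₀).trans ?_
      rw [← hNd x₀]
      exact Finset.card_le_univ _)
    (fun x => by rw [hNd]; exact hmax x)
    (fun x y => by rw [hNmem, hNmem, G.adj_comm])
    (fun t ht => (hpar t ht).2) hcard
  -- pairs of a tree and an automorphism give embeddings
  have hcount : I.ncard * Nat.card (T ≃g T) ≤
      Nat.card {φ : W ≃ V // ∀ t, t ≠ r → φ (par t) ∈ N (φ t)} := by
    have hIcard : I.ncard = Nat.card I := rfl
    rw [hIcard, ← Nat.card_prod]
    have hch : ∀ S : I, Nonempty (T ≃g (S : SimpleGraph V)) := by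
      rintro ⟨S, -, ⟨e⟩⟩
      exact ⟨e.symm⟩
    let e : ∀ S : I, T ≃g (S : SimpleGraph V) := fun S => Classical.choice (hch S)
    refine Nat.card_le_card_of_injective (fun p : I × (T ≃g T) =>
      (⟨(p.2.toEquiv.trans (e p.1).toEquiv), ?_⟩ :
        {φ : W ≃ V // ∀ t, t ≠ r → φ (par t) ∈ N (φ t)})) ?_
    · intro t ht
      rw [hNmem]
      have h1 : T.Adj (par t) t := (hpar t ht).1
      have h2 : (p.1 : SimpleGraph V).Adj (e p.1 (p.2 t)) (e p.1 (p.2 (par t))) :=
        (e p.1).map_adj_iff.2 (p.2.map_adj_iff.2 h1.symm)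
      exact p.1.2.1.1 h2
    · rintro ⟨S, α⟩ ⟨S', α'⟩ h
      have h1 : α.toEquiv.trans (e S).toEquiv = α'.toEquiv.trans (e S').toEquiv :=
        congrArg Subtype.val h
      have h2 : ∀ t, e S (α t) = e S' (α' t) := fun t =>
        congrArg (fun (f : W ≃ V) => f t) h1
      have hS : S = S' := by
        apply Subtype.ext
        ext x y
        obtain ⟨a, rfl⟩ := (e S).surjective x
        obtain ⟨b, rfl⟩ := (e S).surjective y
        obtain ⟨a, rfl⟩ := α.surjective a
        obtain ⟨b, rfl⟩ := α.surjective b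
        rw [(e S).map_adj_iff, α.map_adj_iff, h2, h2, (e S').map_adj_iff, α'.map_adj_iff]
      subst hS
      have hα : α = α' := by
        ext t
        exact (e S).injective (h2 t)
      rw [hα]
  have hcount' : (I.ncard : ℝ) * Nat.card (T ≃g T) ≤
      (Δ / Real.exp 1) ^ Fintype.card V * Real.exp (ε / 2 * Fintype.card V) := by
    refine le_trans ?_ hU
    exact_mod_cast hcount
  rw [div_le_div_iff₀ hτpos hApos]
  refine hcount'.trans ?_
  have hprod : ∏ x, (Δ / deg G x : ℝ) = (Δ : ℝ) ^ Fintype.card V / ∏ x, (deg G x : ℝ) := by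
    rw [Finset.prod_div_distrib, Finset.prod_const, Finset.card_univ]
  have h3 : ((Δ : ℝ) / Real.exp 1) ^ Fintype.card V * Real.exp (ε / 2 * Fintype.card V) =
      (∏ x, (Δ / deg G x : ℝ)) * Real.exp (-(1 - ε) * Fintype.card V) *
        ((∏ x, (deg G x : ℝ)) * Real.exp (-(ε / 2 * Fintype.card V))) := by
    rw [hprod, div_pow, ← Real.exp_nat_mul, mul_one]
    have h4 : Real.exp (-(1 - ε) * Fintype.card V) * Real.exp (-(ε / 2 * Fintype.card V)) =
        Real.exp (ε / 2 * Fintype.card V) / Real.exp (Fintype.card V) := by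
      rw [← Real.exp_add, ← Real.exp_sub]
      congr 1
      ring
    calc (Δ : ℝ) ^ Fintype.card V / Real.exp (Fintype.card V) * Real.exp (ε / 2 * Fintype.card V)
        = (Δ : ℝ) ^ Fintype.card V *
          (Real.exp (ε / 2 * Fintype.card V) / Real.exp (Fintype.card V)) := by ring
      _ = (Δ : ℝ) ^ Fintype.card V / (∏ x, (deg G x : ℝ)) * (∏ x, (deg G x : ℝ)) *
          (Real.exp (-(1 - ε) * Fintype.card V) * Real.exp (-(ε / 2 * Fintype.card V))) := by
            rw [h4, div_mul_cancel₀ _ hPpos.ne']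
      _ = _ := by ring
  rw [h3]
  have h5 : 0 ≤ (∏ x, (Δ / deg G x : ℝ)) * Real.exp (-(1 - ε) * Fintype.card V) :=
    mul_nonneg (Finset.prod_nonneg fun x _ => by positivity) (Real.exp_pos _).le
  exact mul_le_mul_of_nonneg_left hτ' h5

/-- Let `ε > 0`. (1) There is `d₀` such that for every connected graph `G` on `n` vertices with degrees
at least `d₀` and at most `Δ` (`Δ` arbitrary) and every finite tree `T`, a uniform random spanning tree
of `G` is isomorphic to `T` with probability at most
`(∏ x, Δ / deg x) * exp (-(1 - ε) n) / |Aut T|`. (2) There are `δ > 0` and `d₀` such that for every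
`d ≥ d₀`, every connected graph `G` on `n` vertices whose degrees are between `(1 - δ) d` and
`(1 + δ) d` and every finite tree `T` this probability is at most `exp (-(1 - ε) n) / |Aut T|`. -/
theorem result : ∀ ε : ℝ, 0 < ε →
    (∃ d₀ : ℕ, ∀ (V W : Type) [Fintype V] [Fintype W] (G : SimpleGraph V) (T : SimpleGraph W)
      (Δ : ℕ), G.Connected → T.IsTree → (∀ x, d₀ ≤ deg G x) → (∀ x, deg G x ≤ Δ) →
      isoProb G T ≤ (∏ x, (Δ / deg G x : ℝ)) * Real.exp (-(1 - ε) * Fintype.card V) /
        Nat.card (T ≃g T)) ∧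
    ∃ δ : ℝ, 0 < δ ∧ ∃ d₀ : ℝ, ∀ d : ℝ, d₀ ≤ d → ∀ (V W : Type) [Fintype V] [Fintype W]
      (G : SimpleGraph V) (T : SimpleGraph W), G.Connected → T.IsTree →
      (∀ x, (1 - δ) * d ≤ deg G x ∧ deg G x ≤ (1 + δ) * d) →
      isoProb G T ≤ Real.exp (-(1 - ε) * Fintype.card V) / Nat.card (T ≃g T) := by
  intro ε hε
  refine ⟨?_, ?_⟩
  · obtain ⟨d₀, _, h⟩ := general ε hε
    exact ⟨d₀, h⟩
  · obtain ⟨δ, hδ⟩ : ∃ δ : ℝ, δ = min ε 1 / 8 := ⟨_, rfl⟩
    have hδ0 : 0 < δ := by rw [hδ]; positivity
    have hδ1 : δ ≤ 1 / 8 := by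
      have := min_le_right ε 1
      linarith
    have hδε : 4 * δ ≤ ε / 2 := by
      have := min_le_left ε 1
      linarith
    obtain ⟨d₀, hd₀, h⟩ := general (ε / 2) (by positivity)
    refine ⟨δ, hδ0, 2 * d₀, ?_⟩
    intro d hd V W _ _ G T hG hT hdeg
    have hd1 : (1 : ℝ) ≤ d₀ := by exact_mod_cast hd₀
    have hd0 : 0 < d := by linarith
    have hlow : ∀ x, (d₀ : ℝ) ≤ deg G x := by
      intro x
      have h1 := (hdeg x).1
      nlinarith
    have hmin : ∀ x, d₀ ≤ deg G x := fun x => by exact_mod_cast hlow x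
    have hmax : ∀ x, deg G x ≤ ⌊(1 + δ) * d⌋₊ := fun x => Nat.le_floor (hdeg x).2
    have hfl : ((⌊(1 + δ) * d⌋₊ : ℕ) : ℝ) ≤ (1 + δ) * d := Nat.floor_le (by positivity)
    refine (h V W G T ⌊(1 + δ) * d⌋₊ hG hT hmin hmax).trans ?_
    apply div_le_div_of_nonneg_right _ (Nat.cast_nonneg _)
    have hprod : ∏ x, (((⌊(1 + δ) * d⌋₊ : ℕ) : ℝ) / deg G x) ≤
        Real.exp (ε / 2 * Fintype.card V) := by
      have h1 : ∏ x : V, Real.exp (ε / 2) = Real.exp (ε / 2 * Fintype.card V) := by
        rw [Finset.prod_const, Finset.card_univ, ← Real.exp_nat_mul, mul_comm]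
      rw [← h1]
      apply Finset.prod_le_prod
      · intro x _
        positivity
      · intro x _
        have h2 : (0 : ℝ) < deg G x := by
          have := hlow x
          linarith
        rw [div_le_iff₀ h2]
        have h3 : 1 + 4 * δ ≤ Real.exp (ε / 2) := by
          have := Real.add_one_le_exp (ε / 2)
          linarith
        have h4 : (1 + δ) * d ≤ (1 + 4 * δ) * ((1 - δ) * d) := by
          have h7 : 1 + δ ≤ (1 + 4 * δ) * (1 - δ) := by nlinarith
          have h8 := mul_le_mul_of_nonneg_right h7 hd0.le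
          linarith
        have h5 : (1 + 4 * δ) * ((1 - δ) * d) ≤ (1 + 4 * δ) * deg G x :=
          mul_le_mul_of_nonneg_left (hdeg x).1 (by positivity)
        have h6 : (1 + 4 * δ) * deg G x ≤ Real.exp (ε / 2) * deg G x :=
          mul_le_mul_of_nonneg_right h3 h2.le
        linarith
    calc (∏ x, (((⌊(1 + δ) * d⌋₊ : ℕ) : ℝ) / deg G x)) *
          Real.exp (-(1 - ε / 2) * Fintype.card V) ≤
        Real.exp (ε / 2 * Fintype.card V) * Real.exp (-(1 - ε / 2) * Fintype.card V) :=
          mul_le_mul_of_nonneg_right hprod (Real.exp_pos _).le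
      _ = Real.exp (-(1 - ε) * Fintype.card V) := by
          rw [← Real.exp_add]
          congr 1
          ring

end Pool.Agent.Results.MP_148fc2_co.EveryDegreeSequence
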